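import Pool.Agent.H27.G.R_seed8.TH612.GS.Stm2

/-!
Job GS-NS of helper612 (written by helper767): almost all shift vectors are separated.
-/

set_option autoImplicit false
open Complex Filter Topology MeasureTheory Set
open Pool.Agent.TH612.GS

namespace Pool.Agent.TH767.GS

noncomputable section

lemma slab_le (T r a : ℝ) : (volume.restrict (Icc 0 T)) {y : ℝ | |y - a| < r} ≤
    ENNReal.ofReal (2 * r) := by
  refine (Measure.restrict_apply_le _ _).trans ?_
  have : {y : ℝ | |y - a| < r} = Metric.ball a r := by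
    ext y
    simp [Real.dist_eq]
  rw [this, Real.volume_ball]

lemma pair_le {ι : Type} [Fintype ι] [DecidableEq ι] (T r : ℝ) (p q : ι) (hpq : p ≠ q) :
    (Measure.pi fun _ : ι => (volume.restrict (Icc (0:ℝ) T))) {γ | |γ p - γ q| < r} ≤
      ENNReal.ofReal (2 * r) * ENNReal.ofReal T ^ (Fintype.card ι - 1) := by
  set μ : ι → Measure ℝ := fun _ => volume.restrict (Icc (0:ℝ) T) with hμ
  have hA : MeasurableSet {γ : ι → ℝ | |γ p - γ q| < r} := by
    apply measurableSet_lt
    · exact ((measurable_pi_apply p).sub (measurable_pi_apply q)).abs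
    · exact measurable_const
  have hf : Measurable ({γ : ι → ℝ | |γ p - γ q| < r}.indicator (fun _ => (1 : ENNReal))) :=
    measurable_const.indicator hA
  rw [← lintegral_indicator_one hA]
  have h0 := lintegral_eq_lmarginal_univ (μ := μ)
    (f := {γ : ι → ℝ | |γ p - γ q| < r}.indicator (fun _ => (1 : ENNReal))) (fun _ => 0)
  have h0' : ∫⁻ (a : ι → ℝ), {γ : ι → ℝ | |γ p - γ q| < r}.indicator 1 a ∂Measure.pi μ =
    ∫⁻ (a : ι → ℝ), {γ : ι → ℝ | |γ p - γ q| < r}.indicator (fun _ => (1 : ENNReal)) a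
      ∂Measure.pi μ := rfl
  rw [h0', h0, lmarginal_erase' _ hf (Finset.mem_univ p)]
  have h1 : (fun x : ι → ℝ => ∫⁻ xᵢ, {γ : ι → ℝ | |γ p - γ q| < r}.indicator
      (fun _ => (1 : ENNReal)) (Function.update x p xᵢ) ∂μ p) ≤
      fun _ => ENNReal.ofReal (2 * r) := by
    intro x
    have h2 : (fun xᵢ : ℝ => {γ : ι → ℝ | |γ p - γ q| < r}.indicator
        (fun _ => (1 : ENNReal)) (Function.update x p xᵢ)) =
        {y : ℝ | |y - x q| < r}.indicator (fun _ => (1 : ENNReal)) := by
      funext y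
      by_cases h : |y - x q| < r
      · rw [Set.indicator_of_mem, Set.indicator_of_mem]
        · exact h
        · show |Function.update x p y p - Function.update x p y q| < r
          rw [Function.update_self, Function.update_of_ne hpq.symm]
          exact h
      · rw [Set.indicator_of_notMem, Set.indicator_of_notMem]
        · exact h
        · show ¬ |Function.update x p y p - Function.update x p y q| < r
          rw [Function.update_self, Function.update_of_ne hpq.symm]
          exact h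
    show ∫⁻ xᵢ, {γ : ι → ℝ | |γ p - γ q| < r}.indicator
        (fun _ => (1 : ENNReal)) (Function.update x p xᵢ) ∂μ p ≤ _
    rw [h2, lintegral_indicator]
    · simp only [lintegral_const, one_mul, Measure.restrict_apply_univ]
      exact slab_le T r (x q)
    · apply measurableSet_lt
      · exact (measurable_id.sub measurable_const).abs
      · exact measurable_const
  refine (lmarginal_mono h1 _).trans ?_
  unfold lmarginal
  rw [lintegral_const, Measure.pi_univ]
  gcongr
  have h3 : ∀ i : {x // x ∈ Finset.univ.erase p}, (μ i) univ = ENNReal.ofReal T := by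
    intro i
    simp [hμ]
  rw [Finset.prod_congr rfl (fun i _ => h3 i), Finset.prod_const, Finset.card_univ,
    Fintype.card_coe, Finset.card_erase_of_mem (Finset.mem_univ p), Finset.card_univ]

lemma ns (k : ℕ) (T : ℝ) (hT : 1 ≤ T) :
    mP (Fin k ⊕ Fin k) T (Sep k T)ᶜ ≤ ENNReal.ofReal (8 * k ^ 2 * T ^ (2 * k - 1 / 2 : ℝ)) := by
  set ι := Fin k ⊕ Fin k with hι
  have hT0 : (0 : ℝ) < T := by linarith
  set r : ℝ := T ^ (1 / 2 : ℝ) with hr
  have hr0 : 0 ≤ r := by positivity
  have hsub : (Sep k T)ᶜ ⊆ (⋃ i : ι, Function.eval i ⁻¹' (Icc 0 T)ᶜ) ∪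
      ⋃ i : ι × ι, {γ : ι → ℝ | i.1 ≠ i.2 ∧ |γ i.1 - γ i.2| < r} := by
    intro γ hγ
    by_cases h : ∀ i, 0 ≤ γ i ∧ γ i ≤ T
    · right
      have h2 : ¬ ∀ p q, p ≠ q → T ^ (1 / 2 : ℝ) ≤ |γ p - γ q| := fun h2 => hγ ⟨h, h2⟩
      push Not at h2
      obtain ⟨p, q, hpq, h3⟩ := h2
      exact Set.mem_iUnion.2 ⟨(p, q), hpq, h3⟩
    · left
      rw [not_forall] at h
      obtain ⟨i, hi⟩ := h
      exact Set.mem_iUnion.2 ⟨i, hi⟩
  have hnull : mP ι T (⋃ i : ι, Function.eval i ⁻¹' (Icc 0 T)ᶜ) = 0 := by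
    rw [measure_iUnion_null_iff]
    intro i
    apply Measure.pi_eval_preimage_null
    rw [Measure.restrict_apply measurableSet_Icc.compl]
    simp
  have hcard : Fintype.card ι = 2 * k := by
    have h6 : Fintype.card (Fin k ⊕ Fin k) = 2 * k := by
      rw [Fintype.card_sum, Fintype.card_fin]
      ring
    exact h6
  have hpair : ∀ i : ι × ι, mP ι T {γ : ι → ℝ | i.1 ≠ i.2 ∧ |γ i.1 - γ i.2| < r} ≤
      ENNReal.ofReal (2 * T ^ (2 * k - 1 / 2 : ℝ)) := by
    rintro ⟨p, q⟩
    by_cases hpq : p = q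
    · have : {γ : ι → ℝ | (p, q).1 ≠ (p, q).2 ∧ |γ (p, q).1 - γ (p, q).2| < r} = ∅ := by
        ext γ
        simp [hpq]
      rw [this, measure_empty]
      exact zero_le
    · have h4 : {γ : ι → ℝ | (p, q).1 ≠ (p, q).2 ∧ |γ (p, q).1 - γ (p, q).2| < r} ⊆
          {γ : ι → ℝ | |γ p - γ q| < r} := fun γ hγ => hγ.2
      refine (measure_mono h4).trans ?_
      classical
      refine (pair_le T r p q hpq).trans ?_
      rw [hcard, ← ENNReal.ofReal_pow hT0.le, ← ENNReal.ofReal_mul (by positivity)]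
      apply ENNReal.ofReal_le_ofReal
      have hk : 1 ≤ k := by
        rcases Nat.eq_zero_or_pos k with h | h
        · subst h
          rcases p with p | p <;> exact p.elim0
        · exact h
      have h5 : T ^ (2 * k - 1 / 2 : ℝ) = r * T ^ (2 * k - 1 : ℕ) := by
        rw [hr, ← Real.rpow_natCast, ← Real.rpow_add hT0]
        congr 1
        rw [Nat.cast_sub (by omega)]
        push_cast
        ring
      rw [h5]
      apply le_of_eq
      ring
  calc mP ι T (Sep k T)ᶜ ≤ mP ι T ((⋃ i : ι, Function.eval i ⁻¹' (Icc 0 T)ᶜ) ∪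
      ⋃ i : ι × ι, {γ : ι → ℝ | i.1 ≠ i.2 ∧ |γ i.1 - γ i.2| < r}) := measure_mono hsub
    _ ≤ mP ι T (⋃ i : ι, Function.eval i ⁻¹' (Icc 0 T)ᶜ) +
      mP ι T (⋃ i : ι × ι, {γ : ι → ℝ | i.1 ≠ i.2 ∧ |γ i.1 - γ i.2| < r}) := measure_union_le _ _
    _ ≤ 0 + ∑ i : ι × ι, mP ι T {γ : ι → ℝ | i.1 ≠ i.2 ∧ |γ i.1 - γ i.2| < r} := by
        rw [hnull]
        gcongr
        exact measure_iUnion_fintype_le _ _
    _ ≤ ∑ _i : ι × ι, ENNReal.ofReal (2 * T ^ (2 * k - 1 / 2 : ℝ)) := by
        rw [zero_add]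
        exact Finset.sum_le_sum fun i _ => hpair i
    _ = ENNReal.ofReal (8 * k ^ 2 * T ^ (2 * k - 1 / 2 : ℝ)) := by
        rw [Finset.sum_const, Finset.card_univ, Fintype.card_prod, hcard, nsmul_eq_mul,
          ← ENNReal.ofReal_natCast, ← ENNReal.ofReal_mul (by positivity)]
        congr 1
        push_cast
        ring

theorem t_NS : Pool.Agent.TH612.GS.S_NS := fun k T hT => ns k T hT

end

end Pool.Agent.TH767.GS
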